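import Pool.Agent.Helper80.HD.GoalsB

set_option autoImplicit false

open Filter Topology
open Pool.Agent.Helper80.HD

noncomputable section

namespace Pool.Agent.Helper79.HD

theorem ext_trivial (L : Type) [Field L] (ω : AbsoluteValue L ℝ)
    (h : ∀ x, x ≠ 0 → ω x = 1) :
    ∃ (Ω : Type) (_ : Field Ω) (_ : IsAlgClosed Ω) (w : AbsoluteValue Ω ℝ) (ι : L →+* Ω),
      IsNonarchimedean w ∧ ∀ x, w (ι x) = ω x := by
  classical
  let w : AbsoluteValue (AlgebraicClosure L) ℝ :=
    { toFun := fun x => if x = 0 then 0 else 1
      map_mul' := by
        intro x y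
        by_cases hx : x = 0
        · simp [hx]
        · by_cases hy : y = 0
          · simp [hy]
          · simp [hx, hy]
      nonneg' := by
        intro x
        by_cases hx : x = 0 <;> simp [hx]
      eq_zero' := by
        intro x
        by_cases hx : x = 0 <;> simp [hx]
      add_le' := by
        intro x y
        by_cases hx : x = 0
        · simp [hx]
        · by_cases hy : y = 0
          · simp [hy]
          · by_cases hxy : x + y = 0
            · simp [hx, hy, hxy]
            · simp [hx, hy, hxy] }
  have hw : ∀ x, w x = if x = 0 then 0 else 1 := fun x => rfl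
  refine ⟨AlgebraicClosure L, inferInstance, inferInstance, w, algebraMap L _, ?_, ?_⟩
  · intro x y
    rw [hw, hw, hw]
    by_cases hx : x = 0
    · simp [hx]
    · by_cases hy : y = 0
      · simp [hy]
      · by_cases hxy : x + y = 0
        · simp [hx, hy, hxy]
        · simp [hx, hy, hxy]
  · intro x
    rw [hw]
    by_cases hx : x = 0
    · simp [hx]
    · rw [if_neg, h x hx]
      rw [map_eq_zero]
      exact hx

theorem ext : S_EXT := by
  intro L _ ω hω
  by_cases htr : ∀ x, x ≠ 0 → ω x = 1
  · exact ext_trivial L ω htr
  push Not at htr
  obtain ⟨x0, hx0, hx1⟩ := htr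
  have hnorm : ∀ x : L, ‖((WithAbs.toAbs ω x : WithAbs ω) : ω.Completion)‖ = ω x := by
    intro x
    rw [UniformSpace.Completion.norm_coe]
    rfl
  have hnt : ∃ x : ω.Completion, 1 < ‖x‖ := by
    rcases lt_or_gt_of_ne hx1 with h | h
    · refine ⟨((WithAbs.toAbs ω x0⁻¹ : WithAbs ω) : ω.Completion), ?_⟩
      rw [hnorm, map_inv₀]
      exact (one_lt_inv₀ (ω.pos hx0)).2 h
    · refine ⟨((WithAbs.toAbs ω x0 : WithAbs ω) : ω.Completion), ?_⟩
      rw [hnorm]
      exact h
  let _ : NontriviallyNormedField ω.Completion :=
    { (inferInstance : NormedField ω.Completion) with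
      non_trivial := hnt }
  have hult : IsUltrametricDist ω.Completion := by
    apply IsUltrametricDist.isUltrametricDist_of_forall_norm_add_le_max_norm
    intro x y
    induction x, y using UniformSpace.Completion.induction_on₂ with
    | hp =>
      exact isClosed_le (continuous_fst.add continuous_snd).norm
        (continuous_fst.norm.max continuous_snd.norm)
    | ih a b =>
      rw [← UniformSpace.Completion.coe_add, UniformSpace.Completion.norm_coe,
        UniformSpace.Completion.norm_coe, UniformSpace.Completion.norm_coe]
      exact hω a.ofAbs b.ofAbs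
  let Ω := AlgebraicClosure ω.Completion
  have hpos : ∀ x : Ω, 0 ≤ spectralNorm ω.Completion Ω x := fun x => spectralNorm_nonneg x
  have hna : IsNonarchimedean (spectralNorm ω.Completion Ω) := isNonarchimedean_spectralNorm
  let w : AbsoluteValue Ω ℝ :=
    { toFun := fun x => spectralNorm ω.Completion Ω x
      map_mul' := fun x y => spectralAlgNorm_mul x y
      nonneg' := fun x => spectralNorm_nonneg x
      eq_zero' := by
        intro x
        constructor
        · intro h
          exact eq_zero_of_map_spectralNorm_eq_zero h (Algebra.IsAlgebraic.isAlgebraic x)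
        · intro h
          rw [h]
          exact spectralNorm_zero
      add_le' := by
        intro x y
        refine (hna x y).trans (max_le ?_ ?_)
        · linarith [hpos y]
        · linarith [hpos x] }
  refine ⟨Ω, inferInstance, inferInstance, w,
    (algebraMap ω.Completion Ω).comp ((UniformSpace.Completion.coeRingHom).comp
      (WithAbs.equiv ω).symm.toRingHom), hna, ?_⟩
  intro x
  have h1 : w (((algebraMap ω.Completion Ω).comp ((UniformSpace.Completion.coeRingHom).comp
      (WithAbs.equiv ω).symm.toRingHom)) x) =
      spectralNorm ω.Completion Ω (algebraMap ω.Completion Ω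
        ((WithAbs.toAbs ω x : WithAbs ω) : ω.Completion)) := rfl
  rw [h1, spectralNorm_extends]
  exact hnorm x

end Pool.Agent.Helper79.HD
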