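import Pool.Agent.Helper80.HD.GoalsB

set_option autoImplicit false

open MvPolynomial Filter Topology
open Pool.Agent.Helper80.HD

noncomputable section

namespace Pool.Agent.Helper79.HD

open Height AdmissibleAbsValues

theorem finprod_pos' {α : Type*} {f : α → ℝ} (h : ∀ a, 0 < f a) : 0 < ∏ᶠ a, f a :=
  finprod_induction (fun x : ℝ => 0 < x) one_pos (fun _ _ ha hb => mul_pos ha hb) h

theorem iSup_gn (hG : S_GNM) {K : Type} [Field K] {σ : Type} (v : AbsoluteValue K ℝ)
    (P : MvPolynomial σ K) (hP : P ≠ 0) : (⨆ s, v ((AddMonoidAlgebra.coeff P) s)) = gn v P := by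
  apply le_antisymm
  · apply ciSup_le
    intro s
    exact (hG.2.1 K σ v).2.2.2.1 P s
  · obtain ⟨s, _, hgn⟩ := (hG.2.1 K σ v).2.2.2.2.1 P hP
    rw [hgn]
    have hb : BddAbove (Set.range fun s => v ((AddMonoidAlgebra.coeff P) s)) := by
      refine ⟨gn v P, ?_⟩
      rintro _ ⟨t, rfl⟩
      exact (hG.2.1 K σ v).2.2.2.1 P t
    exact le_ciSup hb s

theorem mulHeight_gn (hG : S_GNM) {K : Type} [Field K] [NumberField K] {σ : Type}
    (P : MvPolynomial σ K) (hP : P ≠ 0) : mulHeight (AddMonoidAlgebra.coeff P) =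
      ((archAbsVal (K := K)).map fun v => gn v P).prod *
          ∏ᶠ v : nonarchAbsVal (K := K), gn v.1 P := by
  have hx : (⇑(AddMonoidAlgebra.coeff P) : (σ →₀ ℕ) → K) ≠ 0 := by
    obtain ⟨s, hs⟩ := MvPolynomial.ne_zero_iff.1 hP
    intro h
    exact hs (congrFun h s)
  rw [Height.mulHeight_eq hx]
  simp only [iSup_gn hG _ P hP]

theorem mulHeight_gn' {K : Type} [Field K] [NumberField K] {σ : Type}
    (P : MvPolynomial σ K) (hP : P ≠ 0) :
    mulHeight (fun i : P.support => P.coeff i.1) =
      ((archAbsVal (K := K)).map fun v => gn v P).prod *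
          ∏ᶠ v : nonarchAbsVal (K := K), gn v.1 P := by
  have hx : (fun i : P.support => P.coeff i.1) ≠ 0 := by
    obtain ⟨s, hs⟩ := MvPolynomial.ne_zero_iff.1 hP
    intro h
    exact hs (congrFun h ⟨s, MvPolynomial.mem_support_iff.2 hs⟩)
  rw [Height.mulHeight_eq hx]
  rfl

theorem lhd (hG : S_GNM) : S_LHD := by
  intro K _ _
  have hpos : ∀ (σ : Type) (P : MvPolynomial σ K), P ≠ 0 → ∀ v : AbsoluteValue K ℝ,
      0 < gn v P := fun σ P hP v => (hG.2.1 K σ v).1 P hP
  refine ⟨?_, ?_, ?_, ?_, ?_⟩
  · intro σ P hP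
    constructor
    · have h2 : lh P = Real.log (((archAbsVal (K := K)).map fun v => gn v P).prod *
          ∏ᶠ v : nonarchAbsVal (K := K), gn v.1 P) := by
        unfold lh Finsupp.logHeight
        rw [mulHeight_gn hG P hP]
      rw [h2, Real.log_mul, Real.log_multiset_prod, Real.log_finprod, Multiset.map_map]
      · rfl
      · intro v
        exact hpos σ P hP v.1
      · intro x hx
        rw [Multiset.mem_map] at hx
        obtain ⟨v, _, rfl⟩ := hx
        exact (hpos σ P hP v).ne'
      · apply Multiset.prod_ne_zero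
        intro h
        rw [Multiset.mem_map] at h
        obtain ⟨v, _, hv⟩ := h
        exact (hpos σ P hP v).ne' hv
      · exact (finprod_pos' (fun v : nonarchAbsVal (K := K) => hpos σ P hP v.1)).ne'
    · have h1 : {v : nonarchAbsVal (K := K) | gn v.1 P ≠ 1} ⊆
          ⋃ s ∈ P.support, {v : nonarchAbsVal (K := K) | v.1 (P.coeff s) ≠ 1} := by
        intro v hv
        obtain ⟨s, hs, hgn⟩ := (hG.2.1 K σ v.1).2.2.2.2.1 P hP
        rw [Set.mem_iUnion₂]
        refine ⟨s, hs, ?_⟩
        show v.1 (P.coeff s) ≠ 1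
        rw [← hgn]
        exact hv
      apply Set.Finite.subset _ h1
      apply Set.Finite.biUnion P.support.finite_toSet
      intro s hs
      exact hasFiniteMulSupport (MvPolynomial.mem_support_iff.1 hs)
  · intro v hv
    have h2 : NumberField.IsInfinitePlace v := NumberField.mem_multisetInfinitePlace.1 hv
    obtain ⟨φ, hφ⟩ := h2
    refine ⟨φ, ?_⟩
    intro c
    rw [← hφ]
    rfl
  · intro c hc
    constructor
    · have h1 := product_formula (K := K) hc
      have h2 := congrArg Real.log h1
      rw [Real.log_one, Real.log_mul, Real.log_multiset_prod, Real.log_finprod,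
        Multiset.map_map] at h2
      · exact h2
      · intro v
        exact v.1.pos hc
      · intro x hx
        rw [Multiset.mem_map] at hx
        obtain ⟨v, _, rfl⟩ := hx
        exact (v.pos hc).ne'
      · apply Multiset.prod_ne_zero
        intro h
        rw [Multiset.mem_map] at h
        obtain ⟨v, _, hv⟩ := h
        exact (v.pos hc).ne' hv
      · exact (finprod_pos' (fun v : nonarchAbsVal (K := K) => v.1.pos hc)).ne'
    · exact hasFiniteMulSupport hc
  · intro v hv
    exact isNonarchimedean v hv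
  · intro σ P
    unfold lh Finsupp.logHeight
    by_cases hP : P = 0
    · subst hP
      have h1 : (⇑(AddMonoidAlgebra.coeff (0 : MvPolynomial σ K)) : (σ →₀ ℕ) → K) = 0 := rfl
      rw [h1, mulHeight_zero, Real.log_one]
    · rw [mulHeight_gn hG P hP, ← mulHeight_gn' P hP]
      exact Real.log_nonneg (one_le_mulHeight _)

end Pool.Agent.Helper79.HD
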