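import Pool.Agent.Helper80.HD.GoalsB

set_option autoImplicit false

open MvPolynomial Filter Topology
open Pool.Agent.Helper80.HD

noncomputable section

namespace Pool.Agent.Helper79.HD

section gnfacts

variable {σ : Type}

theorem le_gn (Q : MvPolynomial σ ℂ) (s : σ →₀ ℕ) : ‖Q.coeff s‖ ≤ gn absC Q := by
  unfold gn
  have hb : BddAbove (Set.range fun s : Q.support => absC (Q.coeff s)) := Set.finite_range _ |>.bddAbove
  by_cases hs : s ∈ Q.support
  · exact le_ciSup hb ⟨s, hs⟩
  · rw [MvPolynomial.notMem_support_iff] at hs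
    rw [hs, norm_zero]
    apply Real.iSup_nonneg
    intro t
    exact absC.nonneg _

theorem gn_nonneg (Q : MvPolynomial σ ℂ) : 0 ≤ gn absC Q := by
  unfold gn
  apply Real.iSup_nonneg
  intro t
  exact absC.nonneg _

theorem exists_gn (Q : MvPolynomial σ ℂ) (hQ : Q ≠ 0) :
    ∃ s ∈ Q.support, gn absC Q = ‖Q.coeff s‖ := by
  have hne : Q.support.Nonempty := MvPolynomial.support_nonempty.2 hQ
  obtain ⟨s, hs, hmax⟩ := Q.support.exists_max_image (fun s => ‖Q.coeff s‖) hne
  refine ⟨s, hs, ?_⟩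
  apply le_antisymm
  · unfold gn
    have : Nonempty Q.support := ⟨⟨s, hs⟩⟩
    apply ciSup_le
    intro t
    exact hmax t.1 t.2
  · exact le_gn Q s

end gnfacts

variable {n : ℕ}

/-- the coefficient polynomial in the first variable -/
def rp (α : Fin n →₀ ℕ) (f : MvPolynomial (Fin (n + 1)) ℂ) : Polynomial ℂ :=
  ∑ i ∈ Finset.range (f.degreeOf 0 + 1), Polynomial.monomial i (f.coeff (α.cons i))

theorem rp_coeff (α : Fin n →₀ ℕ) (f : MvPolynomial (Fin (n + 1)) ℂ) (i : ℕ) :
    (rp α f).coeff i = f.coeff (α.cons i) := by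
  unfold rp
  rw [Polynomial.finsetSum_coeff]
  by_cases hi : i < f.degreeOf 0 + 1
  · rw [Finset.sum_eq_single i]
    · rw [Polynomial.coeff_monomial, if_pos rfl]
    · intro j _ hj
      rw [Polynomial.coeff_monomial, if_neg hj]
    · intro h
      exact absurd (Finset.mem_range.2 hi) h
  · rw [Finset.sum_eq_zero]
    · symm
      by_contra h
      have h1 : α.cons i ∈ f.support := MvPolynomial.mem_support_iff.2 h
      have h2 := MvPolynomial.monomial_le_degreeOf (0 : Fin (n + 1)) h1
      rw [Finsupp.cons_zero] at h2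
      omega
    · intro j hj
      rw [Finset.mem_range] at hj
      rw [Polynomial.coeff_monomial, if_neg (by omega)]

theorem rp_natDegree (α : Fin n →₀ ℕ) (f : MvPolynomial (Fin (n + 1)) ℂ) :
    (rp α f).natDegree ≤ f.degreeOf 0 := by
  rw [Polynomial.natDegree_le_iff_coeff_eq_zero]
  intro i hi
  rw [rp_coeff]
  by_contra h
  have h1 : α.cons i ∈ f.support := MvPolynomial.mem_support_iff.2 h
  have h2 := MvPolynomial.monomial_le_degreeOf (0 : Fin (n + 1)) h1
  rw [Finsupp.cons_zero] at h2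
  omega

/-- specialization of the first variable -/
def sp (w : ℂ) (f : MvPolynomial (Fin (n + 1)) ℂ) : MvPolynomial (Fin n) ℂ :=
  Polynomial.eval (C w) (finSuccEquiv ℂ n f)

theorem sp_coeff (w : ℂ) (f : MvPolynomial (Fin (n + 1)) ℂ) (α : Fin n →₀ ℕ) :
    (sp w f).coeff α = (rp α f).eval w := by
  unfold sp rp
  rw [Polynomial.eval_eq_sum_range, MvPolynomial.coeff_sum, natDegree_finSuccEquiv,
    Polynomial.eval_finsetSum]
  apply Finset.sum_congr rfl
  intro i _
  rw [← C_pow, mul_comm, coeff_C_mul, finSuccEquiv_coeff_coeff, Polynomial.eval_monomial, mul_comm]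

theorem eval_sp (w : ℂ) (v : Fin n → ℂ) (f : MvPolynomial (Fin (n + 1)) ℂ) :
    eval v (sp w f) = eval (Fin.cons w v : Fin (n + 1) → ℂ) f := by
  rw [eval_eq_eval_mv_eval']
  unfold sp
  rw [Polynomial.eval_map, ← Polynomial.eval₂_hom, eval_C]

theorem sp_degreeOf (w : ℂ) (f : MvPolynomial (Fin (n + 1)) ℂ) (j : Fin n) :
    (sp w f).degreeOf j ≤ f.degreeOf j.succ := by
  rw [degreeOf_le_iff]
  intro α hα
  rw [MvPolynomial.mem_support_iff, sp_coeff] at hα
  have h1 : rp α f ≠ 0 := by
    intro h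
    rw [h, Polynomial.eval_zero] at hα
    exact hα rfl
  obtain ⟨i, hi⟩ : ∃ i, (rp α f).coeff i ≠ 0 := by
    by_contra hcon
    push Not at hcon
    exact h1 (Polynomial.ext (by simpa using hcon))
  rw [rp_coeff] at hi
  have h2 := MvPolynomial.monomial_le_degreeOf j.succ (MvPolynomial.mem_support_iff.2 hi)
  rw [Finsupp.cons_succ] at h2
  exact h2

/-- every nonzero polynomial has an exponent with nonzero coefficient polynomial -/
theorem exists_rp {f : MvPolynomial (Fin (n + 1)) ℂ} (hf : f ≠ 0) :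
    ∃ α : Fin n →₀ ℕ, rp α f ≠ 0 ∧ gn absC f ≤ (rp α f).supNorm := by
  obtain ⟨s, hs, hgn⟩ := exists_gn f hf
  refine ⟨s.tail, ?_, ?_⟩
  · intro h
    have h1 := rp_coeff s.tail f (s 0)
    rw [h, Polynomial.coeff_zero, Finsupp.cons_tail] at h1
    exact (MvPolynomial.mem_support_iff.1 hs) h1.symm
  · rw [hgn]
    have h1 := rp_coeff s.tail f (s 0)
    rw [Finsupp.cons_tail] at h1
    rw [← h1]
    exact Polynomial.le_supNorm _ _

theorem supNorm_pos {p : Polynomial ℂ} (hp : p ≠ 0) : 0 < p.supNorm := by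
  obtain ⟨i, hi⟩ : ∃ i, p.coeff i ≠ 0 := by
    by_contra hcon
    push Not at hcon
    exact hp (Polynomial.ext (by simpa using hcon))
  exact lt_of_lt_of_le (norm_pos_iff.2 hi) (p.le_supNorm i)

theorem tor (h : S_TOR1) : S_TOR := by
  intro n
  induction n with
  | zero =>
    intro ι _ R hR 𝒵 h𝒵 hZ
    refine ⟨fun j => j.elim0, fun j => j.elim0, ?_, ?_⟩
    · intro Z hZm hev
      apply hZ Z hZm
      rw [MvPolynomial.eq_C_of_isEmpty Z] at hev ⊢
      rw [eval_C] at hev
      rw [hev, C_0]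
    · have h1 : ∀ i, gn absC (R i) = ‖eval (fun j : Fin 0 => (j.elim0 : ℂ)) (R i)‖ := by
        intro i
        obtain ⟨s, hs, hgn⟩ := exists_gn (R i) (hR i)
        rw [hgn]
        congr 1
        conv_rhs => rw [MvPolynomial.eq_C_of_isEmpty (R i)]
        rw [eval_C]
        congr 1
        ext j
        exact j.elim0
      rw [Finset.prod_congr rfl (fun i _ => h1 i)]
      apply le_mul_of_one_le_left
      · exact Finset.prod_nonneg (fun _ _ => norm_nonneg _)
      · exact one_le_pow₀ (by norm_num)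
  | succ n ih =>
    intro ι _ R hR 𝒵 h𝒵 hZ
    choose α hα0 hα1 using fun i => exists_rp (hR i)
    -- bad values of the first coordinate
    have hex : ∀ Z : MvPolynomial (Fin (n + 1)) ℂ, ∃ β : Fin n →₀ ℕ, Z ∈ 𝒵 → rp β Z ≠ 0 := by
      intro Z
      by_cases hZm : Z ∈ 𝒵
      · obtain ⟨β, hβ, _⟩ := exists_rp (hZ Z hZm)
        exact ⟨β, fun _ => hβ⟩
      · exact ⟨0, fun h' => absurd h' hZm⟩
    choose β hβ using hex
    have hcount : (⋃ Z ∈ 𝒵, {w : ℂ | (rp (β Z) Z).eval w = 0}).Countable := by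
      apply h𝒵.biUnion
      intro Z hZm
      apply Set.Finite.countable
      apply Set.Finite.subset (rp (β Z) Z).roots.toFinset.finite_toSet
      intro w hw
      rw [Finset.mem_coe, Multiset.mem_toFinset, Polynomial.mem_roots (hβ Z hZm)]
      exact hw
    obtain ⟨w0, hw1, hw2, hw3⟩ := h ι (fun i => rp (α i) (R i)) hα0 _ hcount
    have hprod : 0 < ∏ i, ‖(rp (α i) (R i)).eval w0‖ := by
      have h1 : 0 < ∏ i, (rp (α i) (R i)).supNorm :=
        Finset.prod_pos (fun i _ => supNorm_pos (hα0 i))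
      have h2 := lt_of_lt_of_le h1 hw3
      exact (mul_pos_iff_of_pos_left (by positivity)).1 h2
    have hne : ∀ i, (rp (α i) (R i)).eval w0 ≠ 0 := by
      intro i hi
      have h1 : ∏ i, ‖(rp (α i) (R i)).eval w0‖ = 0 :=
        Finset.prod_eq_zero (Finset.mem_univ i) (by rw [hi, norm_zero])
      linarith
    have hR' : ∀ i, sp w0 (R i) ≠ 0 := by
      intro i hi
      apply hne i
      rw [← sp_coeff, hi, coeff_zero]
    have hZ' : ∀ Z ∈ (sp w0) '' 𝒵, Z ≠ 0 := by
      rintro _ ⟨Z, hZm, rfl⟩ hz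
      apply hw2
      rw [Set.mem_iUnion₂]
      refine ⟨Z, hZm, ?_⟩
      show (rp (β Z) Z).eval w0 = 0
      rw [← sp_coeff, hz, coeff_zero]
    obtain ⟨v, hv1, hv2, hv3⟩ := ih ι (fun i => sp w0 (R i)) hR' _ (h𝒵.image _) hZ'
    refine ⟨Fin.cons w0 v, ?_, ?_, ?_⟩
    · intro j
      refine Fin.cases ?_ (fun j => ?_) j
      · simpa using hw1
      · simpa using hv1 j
    · intro Z hZm
      rw [← eval_sp]
      exact hv2 _ ⟨Z, hZm, rfl⟩
    · calc ∏ i, gn absC (R i) ≤ ∏ i, (rp (α i) (R i)).supNorm :=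
            Finset.prod_le_prod (fun i _ => gn_nonneg _) (fun i _ => hα1 i)
        _ ≤ 2 ^ (1 + ∑ i, (rp (α i) (R i)).natDegree) * ∏ i, ‖(rp (α i) (R i)).eval w0‖ := hw3
        _ ≤ 2 ^ (1 + ∑ i, (R i).degreeOf 0) * ∏ i, gn absC (sp w0 (R i)) := by
            apply mul_le_mul
            · apply pow_le_pow_right₀ (by norm_num)
              apply Nat.add_le_add_left
              exact Finset.sum_le_sum (fun i _ => rp_natDegree _ _)
            · apply Finset.prod_le_prod (fun i _ => norm_nonneg _)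
              intro i _
              rw [← sp_coeff]
              exact le_gn _ _
            · exact hprod.le
            · positivity
        _ ≤ 2 ^ (1 + ∑ i, (R i).degreeOf 0) * (2 ^ (n + ∑ i, ∑ j, (sp w0 (R i)).degreeOf j) *
              ∏ i, ‖eval v (sp w0 (R i))‖) := by
            apply mul_le_mul_of_nonneg_left hv3 (by positivity)
        _ ≤ 2 ^ (1 + ∑ i, (R i).degreeOf 0) * (2 ^ (n + ∑ i, ∑ j : Fin n, (R i).degreeOf j.succ) *
              ∏ i, ‖eval v (sp w0 (R i))‖) := by
            apply mul_le_mul_of_nonneg_left _ (by positivity)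
            apply mul_le_mul_of_nonneg_right _ (Finset.prod_nonneg (fun _ _ => norm_nonneg _))
            apply pow_le_pow_right₀ (by norm_num)
            apply Nat.add_le_add_left
            exact Finset.sum_le_sum (fun i _ => Finset.sum_le_sum (fun j _ => sp_degreeOf _ _ _))
        _ = 2 ^ (n + 1 + ∑ i, ∑ j, (R i).degreeOf j) *
              ∏ i, ‖eval (Fin.cons w0 v : Fin (n + 1) → ℂ) (R i)‖ := by
            rw [← mul_assoc, ← pow_add]
            congr 1
            · congr 1
              have h5 : ∀ i, ∑ j, (R i).degreeOf j = (R i).degreeOf 0 +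
                  ∑ j : Fin n, (R i).degreeOf j.succ := fun i => Fin.sum_univ_succ _
              rw [Finset.sum_congr rfl (fun i _ => h5 i), Finset.sum_add_distrib]
              ring
            · apply Finset.prod_congr rfl
              intro i _
              rw [eval_sp]

end Pool.Agent.Helper79.HD
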